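import Mathlib

/-!
# Quadratic fields: a product of two divisors of a squarefree `D` which is a square in `ℚ(√D)`
-/

set_option autoImplicit false

namespace Pool.Agent.Lib_helper88.UL

theorem span_pair {K : Type} [Field K] [NumberField K] (h2 : Module.finrank ℚ K = 2) {x : K}
    (hx : ∀ q : ℚ, (q : K) ≠ x) (z : K) :
    ∃ a b : ℚ, z = (a : K) + (b : K) * x := by
  have hli : LinearIndependent ℚ ![(1 : K), x] := by
    rw [LinearIndependent.pair_iff]
    intro s t hst
    rw [Algebra.smul_def, Algebra.smul_def, mul_one, eq_ratCast, eq_ratCast] at hst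
    by_cases ht : t = 0
    · subst ht
      rw [Rat.cast_zero, zero_mul, add_zero] at hst
      exact ⟨by exact_mod_cast hst, rfl⟩
    · exfalso
      have ht' : (t : K) ≠ 0 := by exact_mod_cast ht
      apply hx (-s / t)
      rw [Rat.cast_div, Rat.cast_neg, div_eq_iff ht']
      linear_combination -hst
  have hs := hli.span_eq_top_of_card_eq_finrank (by simp [h2])
  have hz : z ∈ Submodule.span ℚ (Set.range ![(1 : K), x]) := by
    rw [hs]; trivial
  rw [Submodule.mem_span_range_iff_exists_fun] at hz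
  obtain ⟨c, hc⟩ := hz
  rw [Fin.sum_univ_two] at hc
  refine ⟨c 0, c 1, ?_⟩
  rw [← hc]
  simp [Algebra.smul_def]

theorem fact_le_one {n : ℕ} (h : Squarefree n) (p : ℕ) : n.factorization p ≤ 1 :=
  Squarefree.natFactorization_le_one p h

theorem even_fact {n : ℕ} (h : IsSquare n) (p : ℕ) : 2 ∣ n.factorization p := by
  obtain ⟨k, rfl⟩ := h
  by_cases hk : k = 0
  · subst hk; simp
  · rw [Nat.factorization_mul hk hk]
    simp only [Finsupp.coe_add, Pi.add_apply]
    exact ⟨k.factorization p, by ring⟩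

theorem eq_of_sq_mul {x y : ℕ} (hx : Squarefree x) (hy : Squarefree y)
    (h : IsSquare (x * y)) : x = y := by
  refine Nat.eq_of_factorization_eq hx.ne_zero hy.ne_zero fun p => ?_
  have h1 := even_fact h p
  rw [Nat.factorization_mul hx.ne_zero hy.ne_zero] at h1
  simp only [Finsupp.coe_add, Pi.add_apply] at h1
  have h2 := fact_le_one hx p
  have h3 := fact_le_one hy p
  omega

theorem eq_of_sq_mul_three {D m n : ℕ} (hD : Squarefree D) (hm : m ∣ D) (hn : n ∣ D)
    (h : IsSquare (D * (m * n))) : m * n = D := by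
  have hm0 : m ≠ 0 := (hD.squarefree_of_dvd hm).ne_zero
  have hn0 : n ≠ 0 := (hD.squarefree_of_dvd hn).ne_zero
  refine Nat.eq_of_factorization_eq (mul_ne_zero hm0 hn0) hD.ne_zero fun p => ?_
  have h1 := even_fact h p
  rw [Nat.factorization_mul hD.ne_zero (mul_ne_zero hm0 hn0), Nat.factorization_mul hm0 hn0] at h1
  rw [Nat.factorization_mul hm0 hn0]
  simp only [Finsupp.coe_add, Pi.add_apply] at h1 ⊢
  have h2 := fact_le_one hD p
  have h3 : m.factorization p ≤ D.factorization p :=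
    (Nat.factorization_le_iff_dvd hm0 hD.ne_zero).mpr hm p
  have h4 : n.factorization p ≤ D.factorization p :=
    (Nat.factorization_le_iff_dvd hn0 hD.ne_zero).mpr hn p
  omega

theorem e2 {K : Type} [Field K] [NumberField K] (h2 : Module.finrank ℚ K = 2) {t : K} {D : ℕ}
    (hD : Squarefree D) (hD1 : 1 < D) (ht : t ^ 2 = (D : K)) {m m2 : ℕ} (hm : m ∣ D)
    (hm2 : m2 ∣ D) {z : K} (hz : z ^ 2 = ((m * m2 : ℕ) : K)) : m = m2 ∨ m * m2 = D := by
  have hirr : ∀ q : ℚ, (q : K) ≠ t := by
    intro q hq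
    have h1 : q * q = (D : ℚ) := by
      have : ((q * q : ℚ) : K) = ((D : ℚ) : K) := by
        push_cast
        rw [← ht, ← hq]; ring
      exact_mod_cast this
    have h3 : IsSquare (D : ℚ) := ⟨q, h1.symm⟩
    rw [Rat.isSquare_natCast_iff] at h3
    obtain ⟨k, hk⟩ := h3
    have h4 : IsUnit k := hD k ⟨1, by rw [mul_one]; exact hk⟩
    rw [Nat.isUnit_iff] at h4
    rw [h4] at hk
    omega
  obtain ⟨a, b, hab⟩ := span_pair h2 hirr z
  have h5 : ((a ^ 2 + b ^ 2 * D - ((m * m2 : ℕ) : ℚ) : ℚ) : K) + ((2 * a * b : ℚ) : K) * t = 0 := by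
    have h6 : ((a : K) + (b : K) * t) ^ 2 = ((m * m2 : ℕ) : K) := by rw [← hab, hz]
    push_cast at h6 ⊢
    linear_combination h6 - (b : K) ^ 2 * ht
  have h7 : 2 * a * b = 0 := by
    by_contra h
    have h8 : ((2 * a * b : ℚ) : K) ≠ 0 := by exact_mod_cast h
    apply hirr (-(a ^ 2 + b ^ 2 * D - ((m * m2 : ℕ) : ℚ)) / (2 * a * b))
    rw [Rat.cast_div, Rat.cast_neg, div_eq_iff h8]
    linear_combination -h5
  have h9 : a ^ 2 + b ^ 2 * D = ((m * m2 : ℕ) : ℚ) := by
    rw [h7, Rat.cast_zero, zero_mul, add_zero] at h5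
    have : (a ^ 2 + b ^ 2 * D - ((m * m2 : ℕ) : ℚ) : ℚ) = 0 := by exact_mod_cast h5
    linarith
  have h10 : a = 0 ∨ b = 0 := by
    rcases mul_eq_zero.mp h7 with h | h
    · left
      rcases mul_eq_zero.mp h with h | h
      · norm_num at h
      · exact h
    · exact Or.inr h
  rcases h10 with h | h
  · right
    rw [h] at h9
    apply eq_of_sq_mul_three hD hm hm2
    rw [← Rat.isSquare_natCast_iff]
    refine ⟨b * D, ?_⟩
    rw [Nat.cast_mul, ← h9]
    ring
  · left
    rw [h] at h9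
    apply eq_of_sq_mul (hD.squarefree_of_dvd hm) (hD.squarefree_of_dvd hm2)
    rw [← Rat.isSquare_natCast_iff]
    refine ⟨a, ?_⟩
    rw [← h9]
    ring

end Pool.Agent.Lib_helper88.UL
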