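import Mathlib
import Pool.Agent.Lib_helper88.UL.E2

/-!
# A squarefree `D > 1` with `s` prime factors has `2^(s-1)` divisors `m` with `m² < D`
-/

set_option autoImplicit false

namespace Pool.Agent.Lib_helper88.UL

theorem card_half {D : ℕ} (hD : Squarefree D) (hD1 : 1 < D) :
    (D.divisors.filter (fun m => m ^ 2 < D)).card = 2 ^ (D.primeFactors.card - 1) := by
  have h0 : D ≠ 0 := by omega
  have hc : D.divisors.card = 2 ^ D.primeFactors.card := by
    rw [Nat.card_divisors h0, ← Finset.prod_const]
    refine Finset.prod_congr rfl fun p hp => ?_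
    have h1 := fact_le_one hD p
    have h2 : 0 < D.factorization p :=
      (Nat.prime_of_mem_primeFactors hp).factorization_pos_of_dvd h0
        (Nat.dvd_of_mem_primeFactors hp)
    omega
  have hne : ∀ n : ℕ, n ^ 2 ≠ D := by
    intro n hn
    have h4 : IsUnit n := hD n ⟨1, by rw [mul_one, ← hn, sq]⟩
    rw [Nat.isUnit_iff] at h4
    rw [h4] at hn
    omega
  have hbij : (D.divisors.filter (fun m => m ^ 2 < D)).card =
      (D.divisors.filter (fun m => ¬ m ^ 2 < D)).card := by
    apply Finset.card_bij (fun m _ => D / m)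
    · intro m hm
      rw [Finset.mem_filter, Nat.mem_divisors] at hm ⊢
      obtain ⟨⟨hmD, _⟩, hlt⟩ := hm
      have h1 : m * (D / m) = D := Nat.mul_div_cancel' hmD
      refine ⟨⟨Nat.div_dvd_of_dvd hmD, h0⟩, ?_⟩
      intro h2
      set n := D / m
      have h3 : m < n := by
        by_contra h4
        push Not at h4
        nlinarith
      nlinarith
    · intro m hm m' hm' he
      rw [Finset.mem_filter, Nat.mem_divisors] at hm hm'
      have h1 : m * (D / m) = D := Nat.mul_div_cancel' hm.1.1
      have h2 : m' * (D / m') = D := Nat.mul_div_cancel' hm'.1.1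
      have he' : D / m = D / m' := he
      rw [← he'] at h2
      have h3 : D / m ≠ 0 := by
        intro h4
        rw [h4, mul_zero] at h1
        exact h0 h1.symm
      exact Nat.eq_of_mul_eq_mul_right (Nat.pos_of_ne_zero h3) (h1.trans h2.symm)
    · intro n hn
      rw [Finset.mem_filter, Nat.mem_divisors] at hn
      obtain ⟨⟨hnD, _⟩, hlt⟩ := hn
      have h1 : n * (D / n) = D := Nat.mul_div_cancel' hnD
      refine ⟨D / n, ?_, Nat.div_div_self hnD h0⟩
      rw [Finset.mem_filter, Nat.mem_divisors]
      refine ⟨⟨Nat.div_dvd_of_dvd hnD, h0⟩, ?_⟩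
      have h2 : D < n ^ 2 := lt_of_le_of_ne (not_lt.mp hlt) (Ne.symm (hne n))
      set m := D / n
      have h3 : m < n := by
        by_contra h4
        push Not at h4
        nlinarith
      have hm0 : 0 < m := by
        rcases Nat.eq_zero_or_pos m with h5 | h5
        · rw [h5, mul_zero] at h1
          omega
        · exact h5
      nlinarith
  have hsum := Finset.card_filter_add_card_filter_not (s := D.divisors) (fun m => m ^ 2 < D)
  rw [← hbij, hc] at hsum
  have hs : 0 < D.primeFactors.card := by
    rw [Finset.card_pos, Nat.nonempty_primeFactors]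
    exact hD1
  obtain ⟨k, hk⟩ : ∃ k, D.primeFactors.card = k + 1 := ⟨D.primeFactors.card - 1, by omega⟩
  rw [hk] at hsum ⊢
  rw [pow_succ] at hsum
  simp only [Nat.add_sub_cancel]
  omega

end Pool.Agent.Lib_helper88.UL
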